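import Pool.Agent.X262.LOS.PowTwo4

/-!
# MP_78b39f_nt: almost primes above almost all multiples of powers of two

For every `δ > 0` and `ε > 0`, all large `r` and all large `n` the interval `[k 2^n, k 2^n + p_n]`
contains the expected number of integers without prime factors `≤ 2^(n/r)`, up to a factor `1 ± ε`,
for all but a proportion at most `ε` of the integers `k` in every interval of length at least
`2^(δ n)`; for instance for all but `ε 2^(δ n)` of the `k ≤ 2^(δ n)`, where these integers have at
most `⌈1 + 2 δ⌉ r` prime factors. In the intervals of the length `λ / V`, where `V` is the density of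
these integers, their number has the Poisson distribution with the mean `λ`. The intervals may also
start at the members of any other residue class modulo `2^n`.

The multiples of `2^n` up to `2^((1+δ) n)` are a sparse set. The proof uses the moments of the number
of the sifted integers in a window, taken along a progression whose modulus is prime to all sifting
primes (`2` is removed by restricting the window to odd integers).
-/

set_option autoImplicit false

namespace Pool.Agent.Results.MP_78b39f_nt.AlmostAllMultiples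

open Finset Filter

/-- `p n` is the `n`-th prime, `p 1 = 2` -/
noncomputable def p (n : ℕ) : ℕ := Nat.nth Nat.Prime (n - 1)

/-- the level `⌊2 ^ (n / r)⌋` -/
noncomputable def level (n r : ℕ) : ℕ := ⌊(2 : ℝ) ^ ((n : ℝ) / r)⌋₊

/-- all prime factors of `m` are larger than `y` -/
def Rough (y m : ℕ) : Prop := ∀ q : ℕ, q.Prime → q ∣ m → y < q

open Classical in
/-- the number of the integers in `[A, A + H]` without prime factors `≤ y` -/
noncomputable def roughIn (y A H : ℕ) : ℕ := ((Icc A (A + H)).filter (Rough y)).card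

/-- the density of the integers without prime factors `≤ y` -/
noncomputable def V (y : ℕ) : ℝ := ∏ q ∈ (Icc 1 y).filter Nat.Prime, (1 - 1 / (q : ℝ))

open Classical in
/-- There is `c > 0` such that for all `δ > 0`, `0 < ε ≤ 1` and `0 < x₁ ≤ x₀` there is `r₀` such that
for all `r ≥ r₀` and all large `n` the following holds with `y = ⌊2 ^ (n / r)⌋`.
We have `p_n ≤ n ^ 2`, `V(y) p_n ≥ c r log n` and `V(y) p_n ≥ 1024 / ε ^ 3`. For all `a`, `s` and
`K ≥ 2 ^ (δ n)` and all `H`:
(1) if `H ≤ n ^ 2` and `V(y) H ≥ 1024 / ε ^ 3` (in particular if `H = p_n`), then for all but at most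
`ε K` of the `k` in `(a, a + K]` the number of the integers without prime factors `≤ y` in
`[k 2^n + s, k 2^n + s + H]` differs from `V(y) H` by at most `ε V(y) H`;
(2) if `x₁ ≤ V(y) H ≤ x₀`, then for every finite set `A` the number of the `k` in `(a, a + K]` for
which this number is in `A` differs from `K` times the Poisson probability (with mean `V(y) H`) of
`A` by at most `ε K`.
(3) An integer `0 < m < 2 ^ (B n)` without prime factors `≤ y` has at most `B r` prime factors,
counted with multiplicity. -/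
theorem result : ∃ c : ℝ, 0 < c ∧ ∀ δ ε x₁ x₀ : ℝ, 0 < δ → 0 < ε → ε ≤ 1 → 0 < x₁ → x₁ ≤ x₀ →
    ∃ r₀ : ℕ, 0 < r₀ ∧ ∀ r : ℕ, r₀ ≤ r → ∃ n₀ : ℕ, ∀ n : ℕ, n₀ ≤ n →
      (p n ≤ n ^ 2 ∧ c * r * Real.log n ≤ V (level n r) * p n ∧
        1024 / ε ^ 3 ≤ V (level n r) * p n) ∧
      (∀ a s K : ℕ, (2 : ℝ) ^ (δ * n) ≤ K → ∀ H : ℕ,
        (H ≤ n ^ 2 → 1024 / ε ^ 3 ≤ V (level n r) * H →
          (((Ioc a (a + K)).filter (fun k => ε * (V (level n r) * H) <
            |(roughIn (level n r) (k * 2 ^ n + s) H : ℝ) - V (level n r) * H|)).card : ℝ) ≤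
              ε * K) ∧
        (x₁ ≤ V (level n r) * H → V (level n r) * H ≤ x₀ → ∀ A : Finset ℕ,
          |(((Ioc a (a + K)).filter
              (fun k => roughIn (level n r) (k * 2 ^ n + s) H ∈ A)).card : ℝ) -
            K * ∑ j ∈ A, Real.exp (-(V (level n r) * H)) * (V (level n r) * H) ^ j /
              j.factorial| ≤ ε * K)) ∧
      ∀ B m : ℕ, 0 < m → m < 2 ^ (B * n) → Rough (level n r) m →
        m.primeFactorsList.length ≤ B * r := by
  obtain ⟨c, C, hc, hC, hV⟩ := Pool.Agent.W123.RP.Vz_bounds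
  refine ⟨c / 4, by positivity, ?_⟩
  intro δ ε x₁ x₀ hδ hε hε1 hx₁ hx₀
  obtain ⟨r₀, hr₀, h⟩ := Pool.Agent.X262.LOS.main_pow δ ε x₁ x₀ hδ hε hε1 hx₁ (by linarith)
  refine ⟨r₀, by omega, fun r hr => ?_⟩
  have hr1 : 1 ≤ r := by omega
  have hrr : (1 : ℝ) ≤ r := by exact_mod_cast hr1
  have hlev := Pool.Agent.X262.LOS.lev_tendsto r hr1
  have hlog : Tendsto (fun n : ℕ => Real.log (n : ℝ)) atTop atTop :=
    Real.tendsto_log_atTop.comp tendsto_natCast_atTop_atTop
  have hev : ∀ᶠ n : ℕ in atTop, (p n ≤ n ^ 2 ∧ c / 4 * r * Real.log n ≤ V (level n r) * p n ∧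
      1024 / ε ^ 3 ≤ V (level n r) * p n) := by
    filter_upwards [Pool.Agent.X262.LOS.pn_le, Pool.Agent.X262.LOS.pn_ge,
      hlev.eventually_ge_atTop 2, eventually_ge_atTop 2,
      hlog.eventually_ge_atTop (4 * (1024 / ε ^ 3) / c)] with n h1 h2 h3 h4 h5
    have hn : (0 : ℝ) < n := by exact_mod_cast (by omega : 0 < n)
    obtain ⟨l1, l2⟩ := Pool.Agent.X262.LOS.lev_log n r h3
    have h6 : c / Real.log (level n r : ℝ) ≤ V (level n r) := (hV (level n r) h3).1
    have h7 : c * r / n ≤ V (level n r) := by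
      refine le_trans ?_ h6
      have h8 : Real.log (level n r : ℝ) ≤ (n : ℝ) / r := l2
      have h9 : 0 < Real.log (level n r : ℝ) := l1
      rw [div_le_div_iff₀ hn h9]
      rw [le_div_iff₀ (by linarith)] at h8
      nlinarith
    have h8 : (n : ℝ) * Real.log n ≤ 4 * p n := h2
    have hp0 : (0 : ℝ) ≤ p n := Nat.cast_nonneg _
    have h9 : c / 4 * r * Real.log n ≤ V (level n r) * p n := by
      refine le_trans ?_ (mul_le_mul_of_nonneg_right h7 hp0)
      have e : c / 4 * r * Real.log n = c * r / n * (1 / 4 * (n * Real.log n)) := by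
        field_simp
      rw [e]
      apply mul_le_mul_of_nonneg_left _ (by positivity)
      linarith
    refine ⟨h1, h9, le_trans ?_ h9⟩
    rw [div_le_iff₀ hc] at h5
    have h10 : 0 < c * Real.log n := by
      have : 0 < Real.log n := Real.log_pos (by exact_mod_cast (by omega : 1 < n))
      positivity
    nlinarith
  obtain ⟨n₀, hn₀⟩ := eventually_atTop.1 (hev.and (h r hr))
  refine ⟨n₀, fun n hn => ⟨(hn₀ n hn).1, ?_, ?_⟩⟩
  · intro a s K hK H
    obtain ⟨q1, q2⟩ := (hn₀ n hn).2 a s K hK H
    exact ⟨q1, q2⟩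
  · intro B m hm hmB hR
    exact Pool.Agent.X262.LOS.factors_le n r B m hr1 hm hmB hR

end Pool.Agent.Results.MP_78b39f_nt.AlmostAllMultiples
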