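import Mathlib
import Pool.Agent.X100.PB.Loc
import Pool.Agent.X28.SX.StepI
import Pool.Agent.Helper602.Est
import Pool.Agent.Y843.HG.Prs

/-! # Primes in `[θ^n, θ^n + p_n]`, for almost every real base `θ > 1`

For almost every base `θ > 1` the interval `[θ^n, θ^n + p_n]` contains at least `1 - ε` times the expected
number `p_n / log (θ^n)` of primes, for a set of `n` of upper density at least `c ε ^ 2`; `p_n` can be replaced
by any `H_n` with `H_n / n → ∞`, and `θ^n` by `κ_n θ^n` with any positive `κ_n = e^{o(n)}`. -/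

set_option autoImplicit false

open Finset Filter Topology MeasureTheory

namespace Pool.Agent.Results.MP_78b39f_nt.AlmostEveryBase

/-- `p n` is the `n`-th prime, `p 1 = 2` -/
noncomputable def p (n : ℕ) : ℕ := Nat.nth Nat.Prime (n - 1)

/-- the number of primes in the closed interval `[x, x + H]` -/
noncomputable def primesIn (x : ℝ) (H : ℕ) : ℕ := {q : ℕ | q.Prime ∧ x ≤ q ∧ (q : ℝ) ≤ x + H}.ncard

lemma nth_bounds : ∃ D : ℝ, 1 ≤ D ∧ ∃ n₀ : ℕ, ∀ n : ℕ, n₀ ≤ n →
    (n : ℝ) * Real.log n ≤ D * p n ∧ p n ≤ n ^ 2 := by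
  obtain ⟨C, hC, hcheb⟩ := Pool.Agent.Helper602.Est.cheb
  obtain ⟨n2, hn2⟩ := Pool.Agent.X28.SX.nth_le
  obtain ⟨n3, hn3⟩ := Pool.Agent.Y843.HS.log_pow_le 2 1
  refine ⟨2 * C + 1, by linarith, max n2 (max n3 16), ?_⟩
  intro n hn
  have hn16 : 16 ≤ n := by omega
  have hnr : (16 : ℝ) ≤ n := by exact_mod_cast hn16
  have hn0 : (0 : ℝ) < n := by linarith
  have hpn : n ≤ p n := by
    have h1 := Nat.add_two_le_nth_prime (n - 1)
    unfold p
    omega
  constructor
  · have h1 := hcheb (p n) (by omega)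
    have h2 : ((n : ℝ) - 1) ≤ Nat.primeCounting (p n) := by
      have h3 : Nat.primeCounting' (p n) = n - 1 := Nat.primeCounting'_nth_eq (n - 1)
      have h4 : Nat.primeCounting' (p n) ≤ Nat.primeCounting (p n) := by
        unfold Nat.primeCounting
        exact Nat.monotone_primeCounting' (Nat.le_succ _)
      have h5 : n ≤ Nat.primeCounting (p n) + 1 := by omega
      have h6 : (n : ℝ) ≤ Nat.primeCounting (p n) + 1 := by exact_mod_cast h5
      linarith
    have hpr : (n : ℝ) ≤ (p n : ℝ) := by exact_mod_cast hpn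
    have hlogn : 0 < Real.log n := Real.log_pos (by linarith)
    have hlogp : Real.log n ≤ Real.log (p n) := Real.log_le_log hn0 hpr
    have h3 : C * (p n : ℝ) / Real.log (p n) ≤ C * (p n : ℝ) / Real.log n :=
      div_le_div_of_nonneg_left (by positivity) hlogn hlogp
    have h4 : (n : ℝ) - 1 ≤ C * (p n : ℝ) / Real.log n := h2.trans (h1.trans h3)
    rw [le_div_iff₀ hlogn] at h4
    have h6 : (n : ℝ) * Real.log n ≤ 2 * (((n : ℝ) - 1) * Real.log n) := by nlinarith
    have h7 : (0 : ℝ) ≤ (p n : ℝ) := Nat.cast_nonneg _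
    nlinarith
  · have h1 := hn2 n (by omega) n (by omega)
    have h2 := hn3 n (by omega)
    rw [one_mul] at h2
    have h3 : (p n : ℝ) ≤ (n : ℝ) ^ 2 := by
      unfold p
      refine h1.trans ?_
      rw [sq (n : ℝ)]
      exact mul_le_mul_of_nonneg_left h2 hn0.le
    exact_mod_cast h3

lemma hit_le (H m : ℕ) (x : ℝ) (h1 : (m : ℝ) < x) (h2 : x < m + 1) :
    (Pool.Agent.X28.SP.hit0 H m).card ≤ primesIn x H := by
  unfold primesIn
  have hfin : {q : ℕ | q.Prime ∧ x ≤ q ∧ (q : ℝ) ≤ x + H}.Finite := by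
    apply (Set.finite_Iic (m + 1 + H)).subset
    intro q hq
    rw [Set.mem_Iic]
    have h3 : (q : ℝ) < ((m + 1 + H : ℕ) : ℝ) := by
      push_cast
      linarith [hq.2.2]
    exact (by exact_mod_cast h3 : q < m + 1 + H).le
  have h3 : (((Pool.Agent.X28.SP.hit0 H m).image fun j => m + j : Finset ℕ) : Set ℕ) ⊆
      {q : ℕ | q.Prime ∧ x ≤ q ∧ (q : ℝ) ≤ x + H} := by
    intro q hq
    rw [mem_coe, mem_image] at hq
    obtain ⟨j, hj, rfl⟩ := hq
    unfold Pool.Agent.X28.SP.hit0 at hj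
    rw [mem_filter, mem_Icc] at hj
    refine ⟨hj.2, ?_, ?_⟩
    · have : (1 : ℝ) ≤ j := by exact_mod_cast hj.1.1
      push_cast
      linarith
    · have : (j : ℝ) ≤ H := by exact_mod_cast hj.1.2
      push_cast
      linarith
  have h4 := Set.ncard_le_ncard h3 hfin
  rw [Set.ncard_coe_finset, card_image_of_injective _ (fun a b hab => by simpa using hab)] at h4
  exact h4

lemma ae_exp (P : ℝ → Prop) (h : ∀ᵐ t : ℝ, 0 < t → P t) : ∀ᵐ θ : ℝ, 1 < θ → P (Real.log θ) := by
  rw [ae_iff] at h ⊢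
  have h1 : volume (Real.exp '' {t : ℝ | ¬ (0 < t → P t)}) = 0 :=
    addHaar_image_eq_zero_of_differentiableOn_of_addHaar_eq_zero volume
      (Real.differentiable_exp.differentiableOn) h
  refine measure_mono_null ?_ h1
  intro θ hθ
  simp only [Set.mem_ofPred_eq, Classical.not_imp] at hθ
  refine ⟨Real.log θ, ?_, Real.exp_log (by linarith [hθ.1])⟩
  simp only [Set.mem_ofPred_eq, Classical.not_imp]
  exact ⟨Real.log_pos hθ.1, hθ.2⟩

open Classical in
/-- There is an absolute constant `c > 0` with the following properties for all `0 < ε ≤ 1`.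

(1) Let `κ n > 0` with `log (κ n) / n → 0`, and let `H n / n → ∞`, `H n ≤ n ^ 2` for large `n`. For almost every
real `θ > 1` there are infinitely many `N` such that for at least `c ε ^ 2 N` of the `n < N` the interval
`[κ n θ ^ n, κ n θ ^ n + H n]` contains at least `(1 - ε) H n / (n log θ)` primes.

(2) In particular, for almost every `θ > 1`, this holds for the intervals `[θ ^ n, θ ^ n + p_n]`, and
`p_n / (n log θ) → ∞`. -/
theorem result : ∃ c : ℝ, 0 < c ∧ ∀ ε : ℝ, 0 < ε → ε ≤ 1 →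
    (∀ (κ : ℕ → ℝ) (H : ℕ → ℕ), (∀ n, 0 < κ n) →
      Tendsto (fun n : ℕ => Real.log (κ n) / n) atTop (𝓝 0) →
      Tendsto (fun n : ℕ => (H n : ℝ) / n) atTop atTop → (∀ᶠ n : ℕ in atTop, H n ≤ n ^ 2) →
      ∀ᵐ θ : ℝ, 1 < θ → ∃ᶠ N : ℕ in atTop,
        c * ε ^ 2 * N ≤ (((Finset.range N).filter (fun n : ℕ =>
          (1 - ε) * H n / (n * Real.log θ) ≤ (primesIn (κ n * θ ^ n) (H n) : ℝ))).card : ℝ)) ∧
    (∀ᵐ θ : ℝ, 1 < θ → ∃ᶠ N : ℕ in atTop,
        c * ε ^ 2 * N ≤ (((Finset.range N).filter (fun n : ℕ =>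
          (1 - ε) * p n / (n * Real.log θ) ≤ (primesIn (θ ^ n) (p n) : ℝ))).card : ℝ)) ∧
    (∀ θ : ℝ, 1 < θ → Tendsto (fun n : ℕ => (p n : ℝ) / (n * Real.log θ)) atTop atTop) := by
  obtain ⟨c, hc, h⟩ := Pool.Agent.X100.PB.ae_t
  have key : ∀ ε : ℝ, 0 < ε → ε ≤ 1 → ∀ (κ : ℕ → ℝ) (H : ℕ → ℕ), (∀ n, 0 < κ n) →
      Tendsto (fun n : ℕ => Real.log (κ n) / n) atTop (𝓝 0) →
      Tendsto (fun n : ℕ => (H n : ℝ) / n) atTop atTop → (∀ᶠ n : ℕ in atTop, H n ≤ n ^ 2) →
      ∀ᵐ θ : ℝ, 1 < θ → ∃ᶠ N : ℕ in atTop,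
        c / 4 * ε ^ 2 * N ≤ (((Finset.range N).filter (fun n : ℕ =>
          (1 - ε) * H n / (n * Real.log θ) ≤ (primesIn (κ n * θ ^ n) (H n) : ℝ))).card : ℝ) := by
    intro ε hε hε1 κ H hκ hκl hH1 hH2
    have h1 := h (ε / 2) (by positivity) (by linarith) κ H hκ hκl hH1 hH2
    filter_upwards [ae_exp _ h1] with θ hθ hθ1
    refine (hθ hθ1).mono fun N hN => ?_
    have e : c * (ε / 2) ^ 2 * N = c / 4 * ε ^ 2 * N := by ring
    rw [e] at hN
    refine hN.trans ?_
    have hcard : ((Finset.range N).filter (fun n : ℕ => Real.log θ ∈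
        Pool.Agent.X100.PB.EE (κ n) (H n) n (ε / 2))).card ≤
        ((Finset.range N).filter (fun n : ℕ =>
          (1 - ε) * H n / (n * Real.log θ) ≤ (primesIn (κ n * θ ^ n) (H n) : ℝ))).card := by
      apply card_le_card
      intro n hn
      rw [mem_filter] at hn ⊢
      refine ⟨hn.1, ?_⟩
      obtain ⟨-, hn2⟩ := hn
      unfold Pool.Agent.X100.PB.EE at hn2
      rw [Set.mem_iUnion] at hn2
      obtain ⟨m, e1, e2, e3⟩ := hn2
      have hl : 0 < Real.log θ := Real.log_pos hθ1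
      have hpow : Real.exp (n * Real.log θ) = θ ^ n := by
        rw [mul_comm, ← Real.rpow_def_of_pos (by linarith), Real.rpow_natCast]
      rw [hpow] at e1 e2
      have h5 : ((Pool.Agent.X28.SP.hit0 (H n) m).card : ℝ) ≤ primesIn (κ n * θ ^ n) (H n) := by
        exact_mod_cast hit_le (H n) m _ e1 e2
      rcases Nat.eq_zero_or_pos n with h0 | h0
      · subst h0
        simp
      · have hn0 : (0 : ℝ) < n := by exact_mod_cast h0
        rw [div_le_iff₀ (by positivity)]
        have h6 : (1 - ε) * (H n : ℝ) ≤ (1 - ε / 2) ^ 2 * H n := by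
          apply mul_le_mul_of_nonneg_right _ (Nat.cast_nonneg _)
          nlinarith [sq_nonneg ε]
        have h7 : (n : ℝ) * Real.log θ * ((Pool.Agent.X28.SP.hit0 (H n) m).card : ℝ) ≤
            n * Real.log θ * primesIn (κ n * θ ^ n) (H n) :=
          mul_le_mul_of_nonneg_left h5 (by positivity)
        linarith
    exact_mod_cast hcard
  obtain ⟨D, hD, n₀, hb⟩ := nth_bounds
  have hD0 : 0 < D := by linarith
  have hlogn : Tendsto (fun n : ℕ => Real.log (n : ℝ)) atTop atTop :=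
    Real.tendsto_log_atTop.comp tendsto_natCast_atTop_atTop
  have hp1 : Tendsto (fun n : ℕ => (p n : ℝ) / n) atTop atTop := by
    have h1 : Tendsto (fun n : ℕ => 1 / D * Real.log (n : ℝ)) atTop atTop :=
      hlogn.const_mul_atTop (by positivity)
    refine tendsto_atTop_mono' _ ?_ h1
    filter_upwards [eventually_ge_atTop n₀, eventually_ge_atTop 1] with n h2 h3
    have hn0 : (0 : ℝ) < n := by exact_mod_cast h3
    rw [le_div_iff₀ hn0]
    have h4 := (hb n h2).1
    rw [one_div, mul_assoc, inv_mul_le_iff₀ hD0]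
    linarith
  have hp2 : ∀ᶠ n : ℕ in atTop, p n ≤ n ^ 2 := by
    filter_upwards [eventually_ge_atTop n₀] with n h2
    exact (hb n h2).2
  refine ⟨c / 4, by positivity, fun ε hε hε1 => ⟨key ε hε hε1, ?_, ?_⟩⟩
  · have h1 := key ε hε hε1 (fun _ => 1) p (fun _ => one_pos) (by simp) hp1 hp2
    simpa only [one_mul] using h1
  · intro θ hθ
    have hl : 0 < Real.log θ := Real.log_pos hθ
    have h1 : Tendsto (fun n : ℕ => (p n : ℝ) / n * (1 / Real.log θ)) atTop atTop :=
      hp1.atTop_mul_const (by positivity)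
    refine h1.congr fun n => ?_
    rw [div_mul_div_comm, mul_one]

end Pool.Agent.Results.MP_78b39f_nt.AlmostEveryBase
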