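import Mathlib
import Pool.Agent.X28.SP.Window
import Pool.Agent.X28.SX.StepI
import Pool.Agent.Helper602.Est
import Pool.Agent.Y843.HG.Prs

/-! # Primes in `[θ 2^n, θ 2^n + p_n]`, for almost every real `θ`

For every base `β > 1` and almost every `θ > 0` the intervals `[θ β^n, θ β^n + p_n]` contain at least
`c log n / log β` primes, the expected order of magnitude, for a set of `n` of upper density at least `δ`;
here `c, δ > 0` are absolute constants. -/

set_option autoImplicit false

open Finset Filter Topology MeasureTheory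

namespace Pool.Agent.Results.MP_78b39f_nt.AlmostEveryRatio

/-- `p n` is the `n`-th prime, `p 1 = 2` -/
noncomputable def p (n : ℕ) : ℕ := Nat.nth Nat.Prime (n - 1)

/-- the number of primes in the closed interval `[x, x + H]` -/
noncomputable def primesIn (x : ℝ) (H : ℕ) : ℕ := {q : ℕ | q.Prime ∧ x ≤ q ∧ (q : ℝ) ≤ x + H}.ncard

lemma nth_bounds : ∃ D : ℝ, 1 ≤ D ∧ ∃ n₀ : ℕ, ∀ n : ℕ, n₀ ≤ n →
    (n : ℝ) * Real.log n ≤ D * p n ∧ p n ≤ n ^ 2 := by
  obtain ⟨C, hC, hcheb⟩ := Pool.Agent.Helper602.Est.cheb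
  obtain ⟨n2, hn2⟩ := Pool.Agent.X28.SX.nth_le
  obtain ⟨n3, hn3⟩ := Pool.Agent.Y843.HS.log_pow_le 2 1
  refine ⟨2 * C + 1, by linarith, max n2 (max n3 16), ?_⟩
  intro n hn
  have hn16 : 16 ≤ n := by omega
  have hnr : (16 : ℝ) ≤ n := by exact_mod_cast hn16
  have hn0 : (0 : ℝ) < n := by linarith
  have hpn : n ≤ p n := by
    have h1 := Nat.add_two_le_nth_prime (n - 1)
    unfold p
    omega
  constructor
  · have h1 := hcheb (p n) (by omega)
    have h2 : ((n : ℝ) - 1) ≤ Nat.primeCounting (p n) := by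
      have h3 : Nat.primeCounting' (p n) = n - 1 := Nat.primeCounting'_nth_eq (n - 1)
      have h4 : Nat.primeCounting' (p n) ≤ Nat.primeCounting (p n) := by
        unfold Nat.primeCounting
        exact Nat.monotone_primeCounting' (Nat.le_succ _)
      have h5 : n ≤ Nat.primeCounting (p n) + 1 := by omega
      have h6 : (n : ℝ) ≤ Nat.primeCounting (p n) + 1 := by exact_mod_cast h5
      linarith
    have hpr : (n : ℝ) ≤ (p n : ℝ) := by exact_mod_cast hpn
    have hlogn : 0 < Real.log n := Real.log_pos (by linarith)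
    have hlogp : Real.log n ≤ Real.log (p n) := Real.log_le_log hn0 hpr
    have h3 : C * (p n : ℝ) / Real.log (p n) ≤ C * (p n : ℝ) / Real.log n :=
      div_le_div_of_nonneg_left (by positivity) hlogn hlogp
    have h4 : (n : ℝ) - 1 ≤ C * (p n : ℝ) / Real.log n := h2.trans (h1.trans h3)
    rw [le_div_iff₀ hlogn] at h4
    have h6 : (n : ℝ) * Real.log n ≤ 2 * (((n : ℝ) - 1) * Real.log n) := by nlinarith
    have h7 : (0 : ℝ) ≤ (p n : ℝ) := Nat.cast_nonneg _
    nlinarith
  · have h1 := hn2 n (by omega) n (by omega)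
    have h2 := hn3 n (by omega)
    rw [one_mul] at h2
    have h3 : (p n : ℝ) ≤ (n : ℝ) ^ 2 := by
      unfold p
      refine h1.trans ?_
      rw [sq (n : ℝ)]
      exact mul_le_mul_of_nonneg_left h2 hn0.le
    exact_mod_cast h3

lemma hit_le (H m : ℕ) (x : ℝ) (h1 : (m : ℝ) < x) (h2 : x < m + 1) :
    (Pool.Agent.X28.SP.hit0 H m).card ≤ primesIn x H := by
  unfold primesIn
  have hfin : {q : ℕ | q.Prime ∧ x ≤ q ∧ (q : ℝ) ≤ x + H}.Finite := by
    apply (Set.finite_Iic (m + 1 + H)).subset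
    intro q hq
    rw [Set.mem_Iic]
    have h3 : (q : ℝ) < ((m + 1 + H : ℕ) : ℝ) := by
      push_cast
      linarith [hq.2.2]
    exact (by exact_mod_cast h3 : q < m + 1 + H).le
  have h3 : (((Pool.Agent.X28.SP.hit0 H m).image fun j => m + j : Finset ℕ) : Set ℕ) ⊆
      {q : ℕ | q.Prime ∧ x ≤ q ∧ (q : ℝ) ≤ x + H} := by
    intro q hq
    rw [mem_coe, mem_image] at hq
    obtain ⟨j, hj, rfl⟩ := hq
    unfold Pool.Agent.X28.SP.hit0 at hj
    rw [mem_filter, mem_Icc] at hj
    refine ⟨hj.2, ?_, ?_⟩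
    · have : (1 : ℝ) ≤ j := by exact_mod_cast hj.1.1
      push_cast
      linarith
    · have : (j : ℝ) ≤ H := by exact_mod_cast hj.1.2
      push_cast
      linarith
  have h4 := Set.ncard_le_ncard h3 hfin
  rw [Set.ncard_coe_finset, card_image_of_injective _ (fun a b hab => by simpa using hab)] at h4
  exact h4

open Classical in
/-- There are absolute constants `c, δ > 0` such that for every real `β > 1` and almost every real `θ > 0` there are
infinitely many `N` for which at least `δ N` of the `n < N` are such that the interval `[θ β ^ n, θ β ^ n + p_n]`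
contains at least `c log n / log β` primes. -/
theorem result : ∃ c δ : ℝ, 0 < c ∧ 0 < δ ∧ ∀ β : ℝ, 1 < β → ∀ᵐ θ : ℝ, 0 < θ → ∃ᶠ N : ℕ in atTop,
    δ * N ≤ (((Finset.range N).filter (fun n : ℕ =>
      c * Real.log n / Real.log β ≤ (primesIn (θ * β ^ n) (p n) : ℝ))).card : ℝ) := by
  obtain ⟨c, δ, hc, hδ, hδ1, h⟩ := Pool.Agent.X28.SP.local_many
  obtain ⟨D, hD, n₀, hb⟩ := nth_bounds
  refine ⟨c / D, δ / 4, by positivity, by positivity, fun β hβ => ?_⟩
  have hlb : 0 < Real.log β := Real.log_pos hβ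
  have hD0 : 0 < D := by linarith
  have hev : ∀ᶠ n : ℕ in atTop, n * Real.log β ≤ p n ∧ p n ≤ n ^ 2 := by
    have h1 : ∀ᶠ n : ℕ in atTop, D * Real.log β ≤ Real.log n :=
      (Real.tendsto_log_atTop.comp (tendsto_natCast_atTop_atTop (R := ℝ))).eventually_ge_atTop _
    filter_upwards [h1, eventually_ge_atTop n₀] with n h1 h2
    refine ⟨?_, (hb n h2).2⟩
    have h3 := (hb n h2).1
    have h4 : (n : ℝ) * (D * Real.log β) ≤ n * Real.log n :=
      mul_le_mul_of_nonneg_left h1 (Nat.cast_nonneg _)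
    have h5 : D * (n * Real.log β) ≤ D * p n := by linarith
    exact le_of_mul_le_mul_left h5 hD0
  set S : ℕ → Set ℕ := fun n =>
    {m : ℕ | c * p n / (n * Real.log β) ≤ ((Pool.Agent.X28.SP.hit0 (p n) m).card : ℝ)} with hS
  set E : ℕ → Set ℝ := fun n => ⋃ m ∈ S n, {θ : ℝ | (m : ℝ) < θ * β ^ n} ∩ {θ : ℝ | θ * β ^ n < m + 1}
    with hE
  have hEm : ∀ n, MeasurableSet (E n) := by
    intro n
    apply IsOpen.measurableSet
    refine isOpen_biUnion fun m _ => IsOpen.inter ?_ ?_
    · exact isOpen_lt continuous_const (by fun_prop)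
    · exact isOpen_lt (by fun_prop) continuous_const
  have hloc : ∀ u v : ℝ, 0 < u → u < v → v ≤ 2 * u →
      ∀ᶠ n : ℕ in atTop, δ * (v - u) ≤ volume.real (E n ∩ Set.Icc u v) := by
    intro u v hu huv hv2
    filter_upwards [h β hβ p hev u v hu huv hv2] with n hn
    obtain ⟨a, w, h1, h2, h3⟩ := hn
    set x : ℝ := β ^ n with hx
    have hx0 : 0 < x := by positivity
    set G := (Ioc a (a + w)).filter fun m =>
        c * p n / (n * Real.log β) ≤ ((Pool.Agent.X28.SP.hit0 (p n) m).card : ℝ) with hG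
    let J : ℕ → Set ℝ := fun m => Set.Ioo (m / x) ((m + 1) / x)
    have hsub : (⋃ m ∈ G, J m) ⊆ E n ∩ Set.Icc u v := by
      intro θ hθ
      simp only [Set.mem_iUnion] at hθ
      obtain ⟨m, hm, hθ1, hθ2⟩ := hθ
      rw [div_lt_iff₀ hx0] at hθ1
      rw [lt_div_iff₀ hx0] at hθ2
      rw [hG, mem_filter, mem_Ioc] at hm
      obtain ⟨⟨hm1, hm2⟩, hm3⟩ := hm
      refine ⟨?_, ?_, ?_⟩
      · simp only [hE, Set.mem_iUnion]
        exact ⟨m, hm3, hθ1, hθ2⟩
      · have : (a : ℝ) ≤ m := by exact_mod_cast hm1.le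
        have h4 : u * x ≤ θ * x := by linarith
        exact le_of_mul_le_mul_right h4 hx0
      · have : (m : ℝ) ≤ a + w := by exact_mod_cast hm2
        have h4 : θ * x ≤ v * x := by linarith
        exact le_of_mul_le_mul_right h4 hx0
    have hdisj : Set.PairwiseDisjoint (G : Set ℕ) J := by
      have key : ∀ m m' : ℕ, m < m' → Disjoint (J m) (J m') := by
        intro m m' hlt
        rw [Set.disjoint_left]
        rintro θ ⟨-, h6⟩ ⟨h7, -⟩
        have h8 : ((m : ℝ) + 1) / x ≤ m' / x := by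
          apply div_le_div_of_nonneg_right _ hx0.le
          exact_mod_cast hlt
        linarith
      intro m _ m' _ hne
      rcases lt_or_gt_of_ne hne with h | h
      · exact key m m' h
      · exact (key m' m h).symm
    have hvol : ENNReal.ofReal (δ * (v - u)) ≤ volume (E n ∩ Set.Icc u v) := by
      refine le_trans ?_ (measure_mono hsub)
      rw [measure_biUnion_finset hdisj (fun m _ => measurableSet_Ioo)]
      have hlen : ∀ m ∈ G, volume (J m) = ENNReal.ofReal (1 / x) := by
        intro m _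
        simp only [J, Real.volume_Ioo]
        congr 1
        field_simp
        ring
      rw [Finset.sum_congr rfl hlen, Finset.sum_const, nsmul_eq_mul]
      rw [← ENNReal.ofReal_natCast, ← ENNReal.ofReal_mul (Nat.cast_nonneg _)]
      apply ENNReal.ofReal_le_ofReal
      rw [mul_one_div, le_div_iff₀ hx0]
      exact h3
    have hInt : volume (Set.Icc u v) ≠ ⊤ := by
      rw [Real.volume_Icc]; exact ENNReal.ofReal_ne_top
    exact (ENNReal.ofReal_le_iff_le_toReal (ne_top_of_le_ne_top hInt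
      (measure_mono Set.inter_subset_right))).1 hvol
  filter_upwards [Pool.Agent.X28.SP.metric2 E hEm δ hδ hδ1 hloc] with θ hθ hθ0
  have hfreq := hθ hθ0
  have hgood : ∀ n : ℕ, max n₀ 2 ≤ n → θ ∈ E n →
      c / D * Real.log n / Real.log β ≤ (primesIn (θ * β ^ n) (p n) : ℝ) := by
    intro n hn hθn
    have hn2 : 2 ≤ n := (le_max_right _ _).trans hn
    have hnr : (2 : ℝ) ≤ n := by exact_mod_cast hn2
    simp only [hE, Set.mem_iUnion] at hθn
    obtain ⟨m, hm, h1, h2⟩ := hθn
    have h3 : ((Pool.Agent.X28.SP.hit0 (p n) m).card : ℝ) ≤ primesIn (θ * β ^ n) (p n) := by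
      exact_mod_cast hit_le (p n) m (θ * β ^ n) h1 h2
    refine le_trans ?_ ((show c * p n / (n * Real.log β) ≤
      ((Pool.Agent.X28.SP.hit0 (p n) m).card : ℝ) from hm).trans h3)
    have h4 := (hb n ((le_max_left _ _).trans hn)).1
    rw [div_le_div_iff₀ hlb (by positivity)]
    have h5 : c / D * (n * Real.log n) ≤ c / D * (D * p n) :=
      mul_le_mul_of_nonneg_left h4 (by positivity)
    have h6 : c / D * (D * p n) = c * p n := by field_simp
    rw [h6] at h5
    calc c / D * Real.log n * (n * Real.log β) = (c / D * (n * Real.log n)) * Real.log β := by ring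
      _ ≤ (c * p n) * Real.log β := mul_le_mul_of_nonneg_right h5 hlb.le
  have hlarge : ∀ᶠ N : ℕ in atTop, ((max n₀ 2 : ℕ) : ℝ) ≤ δ / 4 * N := by
    have h1 : Tendsto (fun N : ℕ => δ / 4 * (N : ℝ)) atTop atTop :=
      Tendsto.const_mul_atTop (by positivity) tendsto_natCast_atTop_atTop
    exact h1.eventually_ge_atTop _
  refine (hfreq.and_eventually hlarge).mono ?_
  rintro N ⟨h1, h2⟩
  have h3 : ((Finset.range N).filter (fun n : ℕ => θ ∈ E n)) ⊆
      Finset.range (max n₀ 2) ∪ ((Finset.range N).filter (fun n : ℕ =>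
      c / D * Real.log n / Real.log β ≤ (primesIn (θ * β ^ n) (p n) : ℝ))) := by
    intro n hn
    rw [mem_filter, mem_range] at hn
    rw [mem_union, mem_range, mem_filter, mem_range]
    rcases Nat.lt_or_ge n (max n₀ 2) with h | h
    · exact Or.inl h
    · exact Or.inr ⟨hn.1, hgood n h hn.2⟩
  have h4 := (card_le_card h3).trans (card_union_le _ _)
  rw [card_range] at h4
  have h5 : (((Finset.range N).filter (fun n : ℕ => θ ∈ E n)).card : ℝ) ≤
      ((max n₀ 2 : ℕ) : ℝ) + (((Finset.range N).filter (fun n : ℕ =>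
      c / D * Real.log n / Real.log β ≤ (primesIn (θ * β ^ n) (p n) : ℝ))).card : ℝ) := by
    exact_mod_cast h4
  have h6 : 0 ≤ δ * (N : ℝ) := by positivity
  linarith

end Pool.Agent.Results.MP_78b39f_nt.AlmostEveryRatio
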