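import Mathlib
import Pool.Agent.X28.SP.Mult
import Pool.Agent.X28.SX.StepI
import Pool.Agent.Helper602.Est
import Pool.Agent.Y843.HG.Prs

/-! # Primes in `[k 2^n, k 2^n + p_n]` for a positive proportion of the `k ≤ 2^(L n)`, for every large `n`

More generally, for every residue class modulo `2^n` and every length `H` from `n` to `2^(n/2)`: the
interval of length `H` above a positive (logarithmic) proportion of the members `m ≤ 2^((L+1) n)` of the
class contains at least `c H / n` primes, the expected order of magnitude. -/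

set_option autoImplicit false

open Finset

namespace Pool.Agent.Results.MP_78b39f_nt.MultiplesOfPowersOfTwo

/-- `p n` is the `n`-th prime, `p 1 = 2` -/
noncomputable def p (n : ℕ) : ℕ := Nat.nth Nat.Prime (n - 1)

/-- the number of primes in the closed interval `[a, a + H]` -/
def primesIn (a H : ℕ) : ℕ := ((Icc a (a + H)).filter Nat.Prime).card

lemma four_le : ∀ n : ℕ, 16 ≤ n → n ^ 4 ≤ 2 ^ n := by
  intro n hn
  induction n, hn using Nat.le_induction with
  | base => norm_num
  | succ n hn ih =>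
    have h1 : (n + 1) ^ 4 ≤ 2 * n ^ 4 := by
      have h2 : 16 * n ^ 3 ≤ n ^ 4 := by
        calc 16 * n ^ 3 ≤ n * n ^ 3 := Nat.mul_le_mul_right _ hn
          _ = n ^ 4 := by ring
      have h3 : n ^ 2 ≤ n ^ 3 := Nat.pow_le_pow_right (by omega) (by norm_num)
      have h4 : n ≤ n ^ 3 := Nat.le_self_pow (by norm_num) n
      have h5 : 1 ≤ n ^ 3 := Nat.one_le_pow _ _ (by omega)
      have h6 : (n + 1) ^ 4 = n ^ 4 + 4 * n ^ 3 + 6 * n ^ 2 + 4 * n + 1 := by ring
      rw [h6]
      omega
    calc (n + 1) ^ 4 ≤ 2 * n ^ 4 := h1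
      _ ≤ 2 * 2 ^ n := Nat.mul_le_mul_left _ ih
      _ = 2 ^ (n + 1) := by ring

/-- There are an integer `L` and `c > 0` such that for every large `n`:
(1) for every residue `r` modulo `2 ^ n` and every `H` with `n ≤ H ≤ 2 ^ (n / 2)`, the sum of `1 / k` over the
`k ≤ 2 ^ (L n)` for which `[k 2 ^ n + r, k 2 ^ n + r + H]` contains at least `c H / n` primes is at least `c n`;
(2) the sum of `1 / k` over the `k ≤ 2 ^ (L n)` for which `[k 2 ^ n, k 2 ^ n + p_n]` contains at least `c log n`
primes is at least `c n`. -/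
theorem result : ∃ (L : ℕ) (c : ℝ), 0 < c ∧ ∃ n₀ : ℕ, ∀ n : ℕ, n₀ ≤ n →
    (∀ r H : ℕ, r < 2 ^ n → n ≤ H → H ^ 2 ≤ 2 ^ n →
      c * n ≤ ∑ k ∈ (Icc 1 (2 ^ (L * n))).filter
        (fun k => c * H / n ≤ (primesIn (k * 2 ^ n + r) H : ℝ)), (1 : ℝ) / k) ∧
    c * n ≤ ∑ k ∈ (Icc 1 (2 ^ (L * n))).filter
        (fun k => c * Real.log n ≤ (primesIn (k * 2 ^ n) (p n) : ℝ)), (1 : ℝ) / k := by
  obtain ⟨L, c, hc, n1, h⟩ := Pool.Agent.X28.SP.multiples
  obtain ⟨C, hC, hcheb⟩ := Pool.Agent.Helper602.Est.cheb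
  obtain ⟨n2, hn2⟩ := Pool.Agent.X28.SX.nth_le
  obtain ⟨n3, hn3⟩ := Pool.Agent.Y843.HS.log_pow_le 2 1
  set D : ℝ := 2 * C + 1 with hD
  have hD1 : 1 ≤ D := by linarith
  refine ⟨L, c / D, by positivity, max (max n1 n2) (max n3 16), ?_⟩
  intro n hn
  have hn16 : 16 ≤ n := by omega
  have hnr : (16 : ℝ) ≤ n := by exact_mod_cast hn16
  have hn0 : (0 : ℝ) < n := by linarith
  have hcD : c / D ≤ c := div_le_self hc.le hD1
  have hhit : ∀ r H k : ℕ, Pool.Agent.X28.SP.hitP n r H k ⊆ (Icc 1 H) → 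
      (Pool.Agent.X28.SP.hitP n r H k).card ≤ primesIn (k * 2 ^ n + r) H := by
    intro r H k _
    unfold primesIn Pool.Agent.X28.SP.hitP
    apply card_le_card_of_injOn (fun j => k * 2 ^ n + r + j)
    · intro j hj
      rw [mem_coe, mem_filter, mem_Icc] at hj
      rw [mem_coe, mem_filter, mem_Icc]
      refine ⟨⟨Nat.le_add_right _ _, Nat.add_le_add_left hj.1.2 _⟩, ?_⟩
      simp only
      rw [add_assoc]
      exact hj.2
    · intro a _ b _ hab
      simpa using hab
  have hmono : ∀ (r H : ℕ) (t : ℝ), t ≤ c * H / n →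
      ∑ k ∈ (Icc 1 (2 ^ (L * n))).filter
        (fun k => c * H / n ≤ ((Pool.Agent.X28.SP.hitP n r H k).card : ℝ)), (1 : ℝ) / k ≤
      ∑ k ∈ (Icc 1 (2 ^ (L * n))).filter
        (fun k => t ≤ (primesIn (k * 2 ^ n + r) H : ℝ)), (1 : ℝ) / k := by
    intro r H t ht
    apply sum_le_sum_of_subset_of_nonneg
    · intro k hk
      rw [mem_filter] at hk ⊢
      refine ⟨hk.1, ht.trans (hk.2.trans ?_)⟩
      exact_mod_cast hhit r H k (filter_subset _ _)
    · intro _ _ _
      positivity
  have hcn : c / D * n ≤ c * n := mul_le_mul_of_nonneg_right hcD hn0.le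
  constructor
  · intro r H hr hnH hH
    refine hcn.trans ((h n r H (by omega) hr hnH hH).trans (hmono r H _ ?_))
    apply div_le_div_of_nonneg_right _ hn0.le
    exact mul_le_mul_of_nonneg_right hcD (Nat.cast_nonneg _)
  · -- the `n`-th prime
    have hpn : n ≤ p n := by
      have h1 := Nat.add_two_le_nth_prime (n - 1)
      unfold p
      omega
    have hpn2 : p n ≤ n ^ 2 := by
      have h1 := hn2 n (by omega) n (by omega)
      have h2 := hn3 n (by omega)
      rw [one_mul] at h2
      have h3 : (p n : ℝ) ≤ (n : ℝ) ^ 2 := by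
        unfold p
        refine h1.trans ?_
        rw [sq (n : ℝ)]
        exact mul_le_mul_of_nonneg_left h2 hn0.le
      exact_mod_cast h3
    have hpsq : p n ^ 2 ≤ 2 ^ n := by
      calc p n ^ 2 ≤ (n ^ 2) ^ 2 := Nat.pow_le_pow_left hpn2 2
        _ = n ^ 4 := by ring
        _ ≤ 2 ^ n := four_le n hn16
    have hlow : c / D * Real.log n ≤ c * (p n : ℕ) / n := by
      have h1 := hcheb (p n) (by omega)
      have h2 : ((n : ℝ) - 1) ≤ Nat.primeCounting (p n) := by
        have h3 : Nat.primeCounting' (p n) = n - 1 := Nat.primeCounting'_nth_eq (n - 1)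
        have h4 : Nat.primeCounting' (p n) ≤ Nat.primeCounting (p n) := by
          unfold Nat.primeCounting
          exact Nat.monotone_primeCounting' (Nat.le_succ _)
        have h5 : n ≤ Nat.primeCounting (p n) + 1 := by omega
        have h6 : (n : ℝ) ≤ Nat.primeCounting (p n) + 1 := by exact_mod_cast h5
        linarith
      have hpr : (n : ℝ) ≤ (p n : ℝ) := by exact_mod_cast hpn
      have hlogn : 0 < Real.log n := Real.log_pos (by linarith)
      have hlogp : Real.log n ≤ Real.log (p n) := Real.log_le_log hn0 hpr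
      have h3 : C * (p n : ℝ) / Real.log (p n) ≤ C * (p n : ℝ) / Real.log n :=
        div_le_div_of_nonneg_left (by positivity) hlogn hlogp
      have h4 : (n : ℝ) - 1 ≤ C * (p n : ℝ) / Real.log n := h2.trans (h1.trans h3)
      rw [le_div_iff₀ hlogn] at h4
      have h5 : (n : ℝ) * Real.log n ≤ D * p n := by
        have h6 : (n : ℝ) * Real.log n ≤ 2 * (((n : ℝ) - 1) * Real.log n) := by nlinarith
        have h7 : (0 : ℝ) ≤ (p n : ℝ) := Nat.cast_nonneg _
        rw [hD]
        nlinarith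
      rw [le_div_iff₀ hn0, div_mul_eq_mul_div, div_mul_eq_mul_div, div_le_iff₀ (by linarith)]
      nlinarith
    have h1 := hcn.trans ((h n 0 (p n) (by omega) (by positivity) hpn hpsq).trans
      (hmono 0 (p n) _ hlow))
    simpa using h1

end Pool.Agent.Results.MP_78b39f_nt.MultiplesOfPowersOfTwo
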